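import Pool.Agent.GEN.StmtsZ

/-!
# GEN, row ZAK: the operator kills the flat cones
-/

set_option autoImplicit false

namespace Pool.Agent.GEN.H95

open PowerSeries Finset Pool.Agent.Helper6_Mono Pool.Agent.Helper30_Simp
  Pool.Agent.Helper30_Simp2

theorem XY_pow (a b n : ℕ) : XY a b ^ n = XY (a * n) (b * n) := by
  unfold XY
  rw [mul_pow, ← pow_mul, ← map_pow, ← pow_mul]

theorem XY_inj {a b a' b' : ℕ} (h : XY a b = XY a' b') : b = b' := by
  unfold XY at h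
  have h1 := congrArg (PowerSeries.coeff a) h
  rw [PowerSeries.coeff_X_pow_mul', PowerSeries.coeff_X_pow_mul', if_pos le_rfl, Nat.sub_self,
    PowerSeries.coeff_zero_C] at h1
  have h0 : (Polynomial.X ^ b : Polynomial ℤ) ≠ 0 := pow_ne_zero _ Polynomial.X_ne_zero
  split_ifs at h1 with h2
  · rw [PowerSeries.coeff_C] at h1
    split_ifs at h1 with h3
    · have h4 := congrArg Polynomial.natDegree h1
      rwa [Polynomial.natDegree_X_pow, Polynomial.natDegree_X_pow] at h4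
    · exact absurd h1 h0
  · exact absurd h1 h0

theorem XY_one : XY 1 0 = (PowerSeries.X : KY) := by
  unfold XY
  rw [pow_one, pow_zero, map_one, mul_one]

theorem ev1_inY (f : PowerSeries ℤ) : ev1 (inY f) = f := by
  ext n
  unfold ev1 inY
  rw [PowerSeries.coeff_map, PowerSeries.coeff_map, Polynomial.coe_evalRingHom,
    Polynomial.eval_C]

theorem krel_map {σ : Type} [Fintype σ] (M : Finset (σ →₀ ℕ))
    (z : Finset (σ →₀ ℕ) → Finset σ → ℤ⟦X⟧) (hz : KRel M X z (fun _ => 0)) :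
    KRel M (PowerSeries.X : KY) (fun I J => inY (z I J)) (fun _ => 0) := by
  intro I J K hI hKJ hK
  have h1 := congrArg inY (hz I J K hI hKJ hK)
  rw [map_sum, map_zero] at h1
  rw [← h1]
  refine Finset.sum_congr rfl fun K' _ => ?_
  have h2 : inY (PowerSeries.X : ℤ⟦X⟧) = PowerSeries.X := by
    unfold inY
    rw [PowerSeries.map_X]
  rw [map_mul, map_mul, map_pow, map_pow, map_sub, map_one, h2]

theorem map_Xs {σ : Type} [Fintype σ] (M : Finset (σ →₀ ℕ)) (R : Finset (Wa M)) :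
    MvPolynomial.map ev1 (Xs M KY R) = Xs M ℤ⟦X⟧ R := by
  unfold Xs
  rw [map_prod]
  refine Finset.prod_congr rfl fun ρ _ => ?_
  rw [map_sub, map_one, MvPolynomial.map_X]

theorem map_cell {σ : Type} [Fintype σ] (M : Finset (σ →₀ ℕ)) (I : Finset (σ →₀ ℕ))
    (J : Finset σ) : MvPolynomial.map ev1 (cellP M KY I J) = cellP M ℤ⟦X⟧ I J := by
  unfold cellP
  rw [map_mul, map_prod, map_prod]
  congr 1
  · refine Finset.prod_congr rfl fun α _ => ?_
    split_ifs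
    · rw [map_sub, map_one, MvPolynomial.map_X]
    · rw [MvPolynomial.map_X]
  · refine Finset.prod_congr rfl fun i _ => ?_
    split_ifs
    · rw [map_sub, map_one, MvPolynomial.map_X]
    · rw [MvPolynomial.map_X]

theorem map_PZ {σ : Type} [Fintype σ] (M : Finset (σ →₀ ℕ))
    (z : Finset (σ →₀ ℕ) → Finset σ → ℤ⟦X⟧) :
    MvPolynomial.map ev1 (PZ M fun I J => inY (z I J)) = PZ M z := by
  unfold PZ
  rw [map_sum]
  refine Finset.sum_congr rfl fun I _ => ?_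
  rw [map_sum]
  refine Finset.sum_congr rfl fun J _ => ?_
  rw [map_mul, MvPolynomial.map_C, ev1_inY, map_cell]

theorem cpf_any (cpf : CpfStmt) (A W : Type) [CommRing A] [inst : DecidableEq W] (s : Finset W)
    (T : A) (N : W → ℕ) (c : W → A) (b : Ideal A) (m : ℕ) (hs : s.Nonempty)
    (hb : ∀ w ∈ s, (∏ w' ∈ s.erase w, (T ^ N w' - c w')) ^ m ∈ b) :
    ∃ e : ℕ, (∏ w ∈ s, ∏ w' ∈ s.erase w, (c w' ^ N w - c w ^ N w')) ^ e ∈ b := by
  have hi : inst = fun a b => Classical.propDecidable (a = b) := Subsingleton.elim _ _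
  subst hi
  exact cpf A W s T N c b m hs hb

/-- the ideal of the `p` with `p * G ∈ a` -/
def quo {A : Type} [CommRing A] (a : Ideal A) (G : A) : Ideal A where
  carrier := {p | p * G ∈ a}
  add_mem' := by
    intro p q hp hq
    show (p + q) * G ∈ a
    rw [add_mul]
    exact a.add_mem hp hq
  zero_mem' := by
    show 0 * G ∈ a
    rw [zero_mul]
    exact a.zero_mem
  smul_mem' := by
    intro c p hp
    show (c • p) * G ∈ a
    rw [smul_eq_mul, mul_assoc]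
    exact a.mul_mem_left c hp

theorem mem_quo {A : Type} [CommRing A] (a : Ideal A) (G p : A) : p ∈ quo a G ↔ p * G ∈ a :=
  Iff.rfl

open scoped Classical in
theorem core (lcw : LcwStmt) (lck : LckStmt) (cpf : CpfStmt) {σ : Type} [Fintype σ]
    (M : Finset (σ →₀ ℕ)) (hM : M.Nonempty) (A : Type) [CommRing A] [IsDomain A] (Y : A)
    (hunit : IsUnit (1 - Y)) (τ : (σ → ℕ) → A) (a : Ideal (MvPolynomial (Wa M) A))
    (ha1 : ∀ u : σ → ℕ, Ev M A u - MvPolynomial.C (τ u) ∈ a)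
    (ha2 : ∀ S : Finset (Wa M), (∀ u N, InK M S u N → u = 0 ∧ N = 0) → Xs M A S ∈ a)
    (ha3 : ∀ c : A, c ≠ 0 → ∀ p, MvPolynomial.C c * p ∈ a → p ∈ a) (R : Finset (Wa M))
    (W : Finset ((σ → ℕ) × ℕ)) (K : (σ → ℕ) × ℕ → Finset σ)
    (hWR : ∀ w ∈ W, InK M R w.1 w.2)
    (hWK : ∀ w ∈ W, ∀ j ∈ K w, w.1 j ≠ 0 ∧ τ (fun i => if i = j then 1 else 0) = Y)
    (hWf : ∀ w ∈ W, ∀ α : M, (α : σ →₀ ℕ) ∈ fce M w.1 ↔ slk M w.1 w.2 (Sum.inr α) = 0)
    (hWS : ∀ w ∈ W, KS (fce M w.1) (K w))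
    (hcov : ∀ R' : Finset (Wa M), R ⊆ R' → (∃ u N, InK M R' u N ∧ (u ≠ 0 ∨ N ≠ 0)) →
        ∃ w ∈ W, InK M R' w.1 w.2)
    (hsep : ∀ w ∈ W, ∀ w' ∈ W, w ≠ w' → τ w'.1 ^ w.2 ≠ τ w.1 ^ w'.2)
    (z : Finset (σ →₀ ℕ) → Finset σ → A) (hz : KRel M Y z (fun _ => 0)) :
    PZ M z * Xs M A R ∈ a := by
  rcases W.eq_empty_or_nonempty with hW0 | hWn
  · refine a.mul_mem_left _ (ha2 R fun u N huN => ?_)
    by_contra hcon
    obtain ⟨w, hw, -⟩ := hcov R (Finset.Subset.refl R) ⟨u, N, huN, by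
      by_contra h1
      push Not at h1
      exact hcon h1⟩
    rw [hW0] at hw
    exact absurd hw (Finset.notMem_empty w)
  have hb : ∀ w ∈ W, (∏ w' ∈ W.erase w, (ET M A ^ w'.2 - MvPolynomial.C (τ w'.1))) ^
      (Fintype.card (Wa M) + 1) ∈ quo a (PZ M z * Xs M A R) := by
    intro w hw
    have h1 : ∀ R' : Finset (Wa M), R ⊆ R' → ¬ InK M R' w.1 w.2 →
        (∏ w' ∈ W.erase w, (ET M A ^ w'.2 - MvPolynomial.C (τ w'.1))) ^
          (Fintype.card (Wa M) + 1) * Xs M A R' ∈ a := by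
      intro R' hR' hwR'
      exact lcw σ M hM A τ a ha1 ha2 R W hcov w hw (Fintype.card (Wa M)) R' hR'
        (Finset.card_le_univ _) hwR'
    have h2 := lck σ M A Y τ a hunit ha1 R w (K w)
      ((∏ w' ∈ W.erase w, (ET M A ^ w'.2 - MvPolynomial.C (τ w'.1))) ^
          (Fintype.card (Wa M) + 1)) (hWR w hw) (hWK w hw) (hWf w hw) (hWS w hw) h1 z hz
    rw [mem_quo, ← mul_assoc]
    exact h2
  obtain ⟨e, he⟩ := cpf_any cpf (MvPolynomial (Wa M) A) ((σ → ℕ) × ℕ) W (ET M A) (fun w => w.2)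
    (fun w => MvPolynomial.C (τ w.1)) (quo a (PZ M z * Xs M A R)) (Fintype.card (Wa M) + 1) hWn hb
  rw [mem_quo] at he
  have hC : (∏ w ∈ W, ∏ w' ∈ W.erase w, (MvPolynomial.C (τ w'.1) ^ w.2 -
      MvPolynomial.C (τ w.1) ^ w'.2 : MvPolynomial (Wa M) A)) ^ e =
      MvPolynomial.C ((∏ w ∈ W, ∏ w' ∈ W.erase w, (τ w'.1 ^ w.2 - τ w.1 ^ w'.2)) ^ e) := by
    rw [map_pow, map_prod]
    congr 1
    refine Finset.prod_congr rfl fun w _ => ?_
    rw [map_prod]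
    refine Finset.prod_congr rfl fun w' _ => ?_
    rw [map_sub, map_pow, map_pow]
  rw [hC] at he
  refine ha3 _ ?_ _ he
  refine pow_ne_zero _ (Finset.prod_ne_zero_iff.2 fun w hw =>
    Finset.prod_ne_zero_iff.2 fun w' hw' => ?_)
  rw [sub_ne_zero]
  rw [Finset.mem_erase] at hw'
  exact hsep w hw w' hw'.2 (Ne.symm hw'.1)

theorem unitKY : IsUnit (1 - (PowerSeries.X : KY)) := by
  rw [PowerSeries.isUnit_iff_constantCoeff]
  simp

theorem sep_KY {σ : Type} [Fintype σ] (θ : σ → ℕ) (w w' : (σ → ℕ) × ℕ)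
    (h : (∑ i, θ i * w.1 i) * w'.2 ≠ (∑ i, θ i * w'.1 i) * w.2) :
    XY (∑ i, w'.1 i) (∑ i, θ i * w'.1 i) ^ w.2 ≠ XY (∑ i, w.1 i) (∑ i, θ i * w.1 i) ^ w'.2 := by
  intro h1
  rw [XY_pow, XY_pow] at h1
  exact h (XY_inj h1).symm

open scoped Classical in
theorem XY_single {σ : Type} [Fintype σ] (θ : σ → ℕ) (j : σ) (h : θ j = 0) :
    XY (∑ i, if i = j then 1 else 0) (∑ i, θ i * if i = j then 1 else 0) =
      (PowerSeries.X : KY) := by
  simp only [mul_ite, mul_one, mul_zero, Finset.sum_ite_eq', Finset.mem_univ, if_true]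
  rw [h]
  exact XY_one

theorem zak (lcw : LcwStmt) (lck : LckStmt) (cpf : CpfStmt) (zgy : ZgyStmt) : ZakStmt := by
  intro σ _ M hM x hK P z hz R hR
  obtain ⟨W, K, θ, hW, hcov, hsep⟩ := hK R hR
  obtain ⟨a, ha1, ha2, ha3, ha4⟩ := zgy σ M hM θ
  have hG := core lcw lck cpf M hM KY PowerSeries.X unitKY
    (fun u => XY (∑ i, u i) (∑ i, θ i * u i)) a ha1 ha2 ha3 R W K (fun w hw => (hW w hw).2.1)
    (fun w hw j hj => ⟨((hW w hw).2.2.1 j hj).1, XY_single θ j ((hW w hw).2.2.1 j hj).2⟩)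
    (fun w hw => (hW w hw).2.2.2.1) (fun w hw => (hW w hw).2.2.2.2) hcov
    (fun w hw w' hw' h => sep_KY θ w w' (hsep w hw w' hw' h)) (fun I J => inY (z I J))
    (krel_map M z hz)
  have h1 := ha4 _ hG P
  rwa [map_mul, map_PZ, map_Xs] at h1

end Pool.Agent.GEN.H95
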