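import Mathlib
import Pool.Agent.GEN.StmtsT

set_option autoImplicit false

/-! Row TEX of the squad GEN: new independent complex numbers. -/

namespace Pool.Agent.GEN.H95

open scoped Cardinal

theorem countable_adjoin (κ : Type) [Finite κ] (y : κ → ℂ) :
    Countable (Algebra.adjoin ℚ (Set.range y)) := by
  have h1 : Countable (MvPolynomial κ ℚ) := by
    rw [← Cardinal.mk_le_aleph0_iff]
    refine MvPolynomial.cardinalMk_le_max.trans ?_
    simp
  rw [Algebra.adjoin_range_eq_range_aeval]
  exact (AlgHom.rangeRestrict_surjective (MvPolynomial.aeval (R := ℚ) y)).countable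

theorem exists_transcendental (κ : Type) [Finite κ] (y : κ → ℂ) :
    ∃ a : ℂ, Transcendental (Algebra.adjoin ℚ (Set.range y)) a := by
  by_contra hcon
  push Not at hcon
  have h1 := countable_adjoin κ y
  have h2 := Algebraic.countable (Algebra.adjoin ℚ (Set.range y)) ℂ
  apply not_countable_complex
  refine h2.mono (fun a _ => ?_)
  have h3 := hcon a
  rw [Set.mem_ofPred_eq]
  unfold Transcendental at h3
  exact not_not.1 h3

/-- the last index first -/
def gm {ι κ : Type} : ι ⊕ Option κ → Option (ι ⊕ κ)
  | Sum.inl i => some (Sum.inl i)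
  | Sum.inr none => none
  | Sum.inr (some j) => some (Sum.inr j)

theorem gm_inj {ι κ : Type} : Function.Injective (gm : ι ⊕ Option κ → Option (ι ⊕ κ)) := by
  rintro (a | _ | a) (b | _ | b) h
  all_goals simp only [gm, Option.some.injEq, Sum.inl.injEq, Sum.inr.injEq, reduceCtorEq] at h
  · rw [h]
  · rfl
  · rw [h]

theorem tex : TexStmt := by
  intro ι _ c hc s
  induction s with
  | zero =>
    refine ⟨fun j => j.elim0, ?_⟩
    have h1 := hc.comp (fun o : ι ⊕ Fin 0 => Sum.elim id (fun j => j.elim0) o) (by
      rintro (a | a) (b | b) h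
      · exact congrArg Sum.inl h
      · exact b.elim0
      · exact a.elim0
      · exact a.elim0)
    have e : (Sum.elim c (fun j : Fin 0 => j.elim0) : ι ⊕ Fin 0 → ℂ) =
        c ∘ (fun o : ι ⊕ Fin 0 => Sum.elim id (fun j => j.elim0) o) := by
      funext o
      rcases o with a | a
      · rfl
      · exact a.elim0
    rw [e]
    exact h1
  | succ s ih =>
    obtain ⟨d, hd⟩ := ih
    obtain ⟨a, ha⟩ := exists_transcendental (ι ⊕ Fin s) (Sum.elim c d)
    have h1 := (hd.option_iff_transcendental a).2 ha
    refine ⟨fun j => (finSuccEquiv s j).elim a d, ?_⟩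
    have h2 := h1.comp (fun o : ι ⊕ Fin (s + 1) => gm (Sum.map id (finSuccEquiv s) o))
      (gm_inj.comp (Function.injective_id.sumMap (finSuccEquiv s).injective))
    have e : (Sum.elim c (fun j : Fin (s + 1) => (finSuccEquiv s j).elim a d) :
        ι ⊕ Fin (s + 1) → ℂ) =
        (fun o : Option (ι ⊕ Fin s) => o.elim a (Sum.elim c d)) ∘
          (fun o : ι ⊕ Fin (s + 1) => gm (Sum.map id (finSuccEquiv s) o)) := by
      funext o
      rcases o with i | j
      · rfl
      · show (finSuccEquiv s j).elim a d =
          (gm (Sum.inr (finSuccEquiv s j)) : Option (ι ⊕ Fin s)).elim a (Sum.elim c d)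
        rcases finSuccEquiv s j with _ | j'
        · rfl
        · rfl
    rw [e]
    exact h2

end Pool.Agent.GEN.H95
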